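import Mathlib

/-!
# MP_2d002d_gt, part (b): all even log-concave product measures, at most four non-uniform factors.
Interfaces of the modules. Every module proves one of the `Prop`s below.
(The planar logarithmic Brunn-Minkowski inequality for two box walls.)
-/

set_option autoImplicit false

open MeasureTheory Set Filter Topology
open scoped ENNReal Pointwise

namespace Pool.Agent.Lib.MP_2d002d_gt.LB

/-- the linear form in direction `θ` -/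
noncomputable def lin (θ : ℝ) (p : ℝ × ℝ) : ℝ := p.1 * Real.cos θ + p.2 * Real.sin θ

/-- the support function in direction `θ` -/
noncomputable def supp (C : Set (ℝ × ℝ)) (θ : ℝ) : ℝ := sSup (lin θ '' C)

/-- the segment of length `ℓ` orthogonal to the direction `θ`, centred at `0` -/
def seg (θ ℓ : ℝ) : Set (ℝ × ℝ) :=
  (fun s : ℝ => (-(s * Real.sin θ), s * Real.cos θ)) '' Icc (-(ℓ / 2)) (ℓ / 2)

/-- compact convex symmetric nonempty planar sets -/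
structure CB (C : Set (ℝ × ℝ)) : Prop where
  compact : IsCompact C
  convex : Convex ℝ C
  symm : ∀ p ∈ C, -p ∈ C
  nonempty : C.Nonempty

/-- zonogon: Minkowski sum of the segments `seg (θ k) (ℓ k)`, `k < n` -/
noncomputable def zono (θ ℓ : ℕ → ℝ) (n : ℕ) : Set (ℝ × ℝ) :=
  ∑ k ∈ Finset.range n, seg (θ k) (ℓ k)

/-- the open box with half widths `a` -/
def box (a : ℝ × ℝ) : Set (ℝ × ℝ) := {p | |p.1| < a.1 ∧ |p.2| < a.2}

/-- A1: adding a segment. (Rotate by `θ`, then Fubini: every nonempty slice grows by `ℓ`, and the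
projection has length `2 * supp C θ`.) -/
def AreaSeg : Prop :=
  ∀ (C : Set (ℝ × ℝ)) (θ ℓ : ℝ), CB C → 0 ≤ ℓ →
    volume (C + seg θ ℓ) = volume C + ENNReal.ofReal (2 * ℓ * supp C θ)

/-- A2: bodies of the same width in direction `θ`. (Rotate by `θ`, then Fubini, slice by slice
`|C(x) + D(x)| ≥ |C(x)| + |D(x)|`, and `x ↦ 2 x` in the base.) -/
def Strip : Prop :=
  ∀ (C D : Set (ℝ × ℝ)) (θ : ℝ), CB C → CB D → supp C θ = supp D θ →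
    2 * (volume C + volume D) ≤ volume (C + D)

/-- A3 (from A1): support function and area of `C + zonogon`, by induction on `n`. -/
def Zono : Prop :=
  ∀ (θ ℓ : ℕ → ℝ) (n : ℕ), (∀ k, 0 ≤ ℓ k) →
    CB (zono θ ℓ n) ∧
    (∀ φ, supp (zono θ ℓ n) φ = (∑ k ∈ Finset.range n, ℓ k * |Real.sin (φ - θ k)|) / 2) ∧
    (∀ r : ℝ, 0 < r → r • zono θ ℓ n = zono θ (fun k => r * ℓ k) n) ∧
    volume (zono θ ℓ n) =
      ENNReal.ofReal (∑ k ∈ Finset.range n, ℓ k * supp (zono θ ℓ n) (θ k)) ∧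
    ∀ C, CB C → volume (C + zono θ ℓ n) = volume C + ENNReal.ofReal
      (2 * (∑ k ∈ Finset.range n, ℓ k * supp C (θ k)) +
        ∑ k ∈ Finset.range n, ℓ k * supp (zono θ ℓ n) (θ k))

/-- the support numbers of the zonogon with edge directions orthogonal to `k π / N` -/
noncomputable def hN (N : ℕ) (ℓ : ℕ → ℝ) (k : ℕ) : ℝ :=
  (∑ j ∈ Finset.range N, ℓ j * |Real.sin ((k : ℝ) * (Real.pi / N) - (j : ℝ) * (Real.pi / N))|) / 2

/-- A4 (finite dimensional calculus): the zonogon of maximal area with `h k ≤ g k` touches all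
its constraints `k` with `ℓ k > 0`.
Proof: maximise `S ℓ = ∑ ℓ k * hN N ℓ k` on the compact set `0 ≤ ℓ`, `hN N ℓ k ≤ g k`. If
`ℓ k > 0` and `hN N ℓ k < g k`, replace `ℓ` by `ℓ + ε d`, `d k = -2 cot (π/N)`,
`d (k ± 1) = 1 / sin (π/N)` (indices mod `N`), for which `hN N d i = δ i k`; then
`S (ℓ + ε d) = S ℓ + 2 ε ℓ k - 2 ε² cot (π/N)`. -/
def MaxZ : Prop :=
  ∀ (N : ℕ) (g : ℕ → ℝ), 3 ≤ N → (∀ k, 0 < g k) →
    ∃ ℓ : ℕ → ℝ, (∀ k, 0 ≤ ℓ k) ∧ (∀ k < N, hN N ℓ k ≤ g k) ∧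
      (∀ k < N, 0 < ℓ k → hN N ℓ k = g k) ∧ 0 < ∑ k ∈ Finset.range N, ℓ k * hN N ℓ k

/-- A5 (from A2, A3, A4): discrete planar logarithmic Brunn-Minkowski.
Proof: `g k = √(c₀ₖ c₁ₖ)`, `cⱼₖ = supp Cⱼ (kπ/N)`, `Z` from A4, `S = |Z| = ∑ ℓ k h k`,
`Vⱼ = ∑ ℓ k cⱼₖ`. For `ℓ k > 0` put `r = cⱼₖ / h k`; A2 for `Cⱼ` and `r Z` with A3 gives
`|Cⱼ| + r² S ≤ 2 r Vⱼ`. Hence `|C₀| |C₁| ≤ r₀ₖ r₁ₖ (2V₀ - r₀ₖ S)(2V₁ - r₁ₖ S)`, `r₀ₖ r₁ₖ = 1`;
multiply by `ℓ k h k` and sum: `S |C₀| |C₁| ≤ 4V₀V₁S - 4SV₀V₁ + S³`. -/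
def DiscLB : Prop :=
  ∀ (N : ℕ) (C₀ C₁ : Set (ℝ × ℝ)), 3 ≤ N → CB C₀ → CB C₁ → volume C₀ ≠ 0 → volume C₁ ≠ 0 →
    ∃ Z : Set (ℝ × ℝ), CB Z ∧
      (∀ k < N, supp Z ((k : ℝ) * (Real.pi / N)) ≤
        Real.sqrt (supp C₀ ((k : ℝ) * (Real.pi / N)) * supp C₁ ((k : ℝ) * (Real.pi / N)))) ∧
      volume C₀ * volume C₁ ≤ volume Z ^ 2

/-- A6 (from A5): planar logarithmic Brunn-Minkowski for box walls.
Proof: pass to closures and `N = 2 m → ∞`; `Z ⊆ (1 + ε_N) • ½(C₀ + C₁)` (Hahn-Banach, every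
direction is at distance `≤ π/N` from some `kπ/N` up to sign, and `supp ≥ ρ > 0`), and
`Z ⊆` closed box, because the directions `0` and `π/2` are among the `kπ/N`. -/
def PLB : Prop :=
  ∀ (C₀ C₁ : Set (ℝ × ℝ)) (a b : ℝ × ℝ), Convex ℝ C₀ → Convex ℝ C₁ →
    (∀ p ∈ C₀, -p ∈ C₀) → (∀ p ∈ C₁, -p ∈ C₁) → 0 < a.1 → 0 < a.2 → 0 < b.1 → 0 < b.2 →
    C₀ ⊆ box a → C₁ ⊆ box b →
    volume C₀ * volume C₁ ≤
      volume ((1 / 2 : ℝ) • (C₀ + C₁) ∩ box (Real.sqrt (a.1 * b.1), Real.sqrt (a.2 * b.2))) ^ 2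

/-- A7 (from A6): functional version.
Proof: layer cake in the value `r`, A6 for the level sets, Prékopa-Leindler on the line
(`Pool.Agent.Lib.MP_2c1b2b_gt.H32.pl_line`) in the variable `log r`. -/
def FunPLB : Prop :=
  ∀ (F₀ F₁ F : ℝ × ℝ → ℝ≥0∞) (a b : ℝ × ℝ) (c : ℝ≥0∞), c ≠ ∞ →
    Measurable F₀ → Measurable F₁ → Measurable F →
    (∀ x, F₀ x ≤ c) → (∀ x, F₁ x ≤ c) → (∀ x, F₀ (-x) = F₀ x) → (∀ x, F₁ (-x) = F₁ x) →
    (∀ r, Convex ℝ {x | r < F₀ x}) → (∀ r, Convex ℝ {x | r < F₁ x}) →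
    (∀ x y, F₀ x * F₁ y ≤ F ((1 / 2 : ℝ) • (x + y)) ^ 2) →
    0 < a.1 → 0 < a.2 → 0 < b.1 → 0 < b.2 →
    (∫⁻ x in box a, F₀ x) * (∫⁻ x in box b, F₁ x) ≤
      (∫⁻ x in box (Real.sqrt (a.1 * b.1), Real.sqrt (a.2 * b.2)), F x) ^ 2

/-- open coordinate box in `ι → ℝ` -/
def boxι {ι : Type} (a : ι → ℝ) : Set (ι → ℝ) := {x | ∀ i, |x i| < a i}

/-- A8 (from A7 and `pl_pi`): geometric walls in two coordinates, arithmetic walls elsewhere.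
Proof: Fubini over the coordinates `i, j`; `F₀ y, F₁ y, F y` = volumes of the fibres of
`K₀ ∩ boxι a`, ... (even, log-concave by Prékopa-Leindler, bounded). -/
def PairGL : Prop :=
  ∀ (ι : Type) [Fintype ι] [DecidableEq ι] (i j : ι) (K₀ K₁ : Set (ι → ℝ)) (a b : ι → ℝ),
    i ≠ j → IsOpen K₀ → IsOpen K₁ → Convex ℝ K₀ → Convex ℝ K₁ →
    (∀ p ∈ K₀, -p ∈ K₀) → (∀ p ∈ K₁, -p ∈ K₁) → (∀ k, 0 < a k) → (∀ k, 0 < b k) →
    volume (K₀ ∩ boxι a) * volume (K₁ ∩ boxι b) ≤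
      volume ((1 / 2 : ℝ) • (K₀ + K₁) ∩ boxι (fun k => if k = i ∨ k = j then
        Real.sqrt (a k * b k) else (a k + b k) / 2)) ^ 2

end Pool.Agent.Lib.MP_2d002d_gt.LB
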